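import Mathlib

/-!
# Partial-sum inequalities for the chromatic h-polynomial: the proof
-/

namespace Pool.H12.MV.PartialSums

open PowerSeries

/-- `(1 - z)^(d+1) * ∑ c(n) z^n`. -/
noncomputable def hser (d : ℕ) (c : ℕ → ℕ) : PowerSeries ℤ :=
  PowerSeries.mk (fun n => (c n : ℤ)) * (1 - X) ^ (d + 1)

def Good (d : ℕ) (c : ℕ → ℕ) : Prop :=
  (∀ j, 0 ≤ coeff j (hser d c)) ∧ ∀ j, d < j → coeff j (hser d c) = 0

theorem hser_sum {ι : Type*} (d : ℕ) (s : Finset ι) (c : ι → ℕ → ℕ) :
    hser d (fun n => ∑ i ∈ s, c i n) = ∑ i ∈ s, hser d (c i) := by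
  unfold hser
  rw [← Finset.sum_mul]
  congr 1
  ext n
  simp

theorem Good.sum {ι : Type*} {d : ℕ} {s : Finset ι} {c : ι → ℕ → ℕ}
    (h : ∀ i ∈ s, Good d (c i)) : Good d (fun n => ∑ i ∈ s, c i n) := by
  constructor
  · intro j
    rw [hser_sum, map_sum]
    exact Finset.sum_nonneg fun i hi => (h i hi).1 j
  · intro j hj
    rw [hser_sum, map_sum]
    exact Finset.sum_eq_zero fun i hi => (h i hi).2 j hj

theorem Good.zero (d : ℕ) : Good d (fun _ => 0) := by
  have : hser d (fun _ => 0) = 0 := by
    unfold hser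
    have : (PowerSeries.mk fun _ => ((0 : ℕ) : ℤ)) = 0 := by
      ext n; simp
    rw [this, zero_mul]
  constructor
  · intro j; rw [this]; simp
  · intro j _; rw [this]; simp

theorem Good.of_eq_X_pow {d k : ℕ} {c : ℕ → ℕ} (hk : k ≤ d) (h : hser d c = X ^ k) :
    Good d c := by
  constructor
  · intro j
    rw [h, coeff_X_pow]
    split_ifs <;> norm_num
  · intro j hj
    rw [h, coeff_X_pow, if_neg (by omega)]

theorem hser_choose (D a : ℕ) (ha : a ≤ D) :
    hser (D + 1) (fun n => (n + a).choose (D + 1)) = X ^ (D + 1 - a) := by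
  have h1 : (PowerSeries.mk fun n => (((n + a).choose (D + 1) : ℕ) : ℤ)) =
      X ^ (D + 1 - a) * PowerSeries.mk (fun n => (((D + 1 + n).choose (D + 1) : ℕ) : ℤ)) := by
    ext n
    rw [coeff_X_pow_mul', coeff_mk]
    split_ifs with h
    · rw [coeff_mk]
      congr 2
      omega
    · rw [Nat.choose_eq_zero_of_lt (by omega)]
      simp
  unfold hser
  rw [h1, mul_assoc]
  have := mk_add_choose_mul_one_sub_pow_eq_one (S := ℤ) (D + 1)
  rw [this, mul_one]

theorem strictMono_growth {D : ℕ} {g : Fin (D + 1) → ℕ} (hg : StrictMono g) :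
    ∀ (k : ℕ) (i j : Fin (D + 1)), (j : ℕ) = i + k → g i + k ≤ g j := by
  intro k
  induction k with
  | zero =>
    intro i j h
    have : i = j := Fin.ext (by omega)
    rw [this]
    simp
  | succ k ih =>
    intro i j h
    have hj := j.isLt
    have h1 := ih i ⟨i + k, by omega⟩ rfl
    have h2 : g ⟨i + k, by omega⟩ < g j := hg (by
      rw [Fin.lt_def]
      simp only
      omega)
    omega

/-- Monotone-with-prescribed-strictness functions are counted by a binomial coefficient. -/
theorem card_chain (D : ℕ) (a : ℕ → ℕ) (ha0 : a 0 = 0) (ha : ∀ k, a (k + 1) = a k ∨ a (k + 1) = a k + 1)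
    (n : ℕ) :
    Nat.card {g : Fin (D + 1) → Fin n // StrictMono (fun i => ((g i : ℕ) + a i))} =
      (n + a D).choose (D + 1) := by
  have hmono : Monotone a := monotone_nat_of_le_succ (fun k => by
    rcases ha k with h | h <;> omega)
  have hgrow : ∀ k m, a (m + k) ≤ a m + k := by
    intro k
    induction k with
    | zero => intro m; simp
    | succ k ih =>
      intro m
      have h1 := ih m
      have h2 := ha (m + k)
      rw [← add_assoc]
      omega
  have e : {g : Fin (D + 1) → Fin n // StrictMono (fun i => ((g i : ℕ) + a i))} ≃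
      (Fin (D + 1) ↪o Fin (n + a D)) :=
    { toFun := fun g => OrderEmbedding.ofStrictMono
        (fun i => ⟨(g.1 i : ℕ) + a i, by
          have h1 := (g.1 i).isLt
          have h2 : a i ≤ a D := hmono (by omega)
          omega⟩) (fun i j hij => by
            have := g.2 hij
            rw [Fin.lt_def]
            exact this)
      invFun := fun g' => ⟨fun i => ⟨(g' i : ℕ) - a i, by
          have hs : StrictMono (fun i => ((g' i : Fin (n + a D)) : ℕ)) := by
            intro i j hij
            have := g'.strictMono hij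
            rwa [Fin.lt_def] at this
          have h1 := strictMono_growth hs (D - i) i (Fin.last D) (by simp; omega)
          have h2 := (g' (Fin.last D)).isLt
          have h3 := hgrow (D - i) i
          have h4 : (i : ℕ) + (D - i) = D := by omega
          rw [h4] at h3
          have h5 := strictMono_growth hs i 0 i (by simp)
          have h6 := hgrow i 0
          rw [ha0] at h6
          simp only [zero_add] at h6
          have h7 : ((g' i : Fin (n + a D)) : ℕ) + (D - i) ≤ g' (Fin.last D) := h1
          have h8 : ((g' 0 : Fin (n + a D)) : ℕ) + i ≤ g' i := h5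
          omega⟩, by
          have hs : StrictMono (fun i => ((g' i : Fin (n + a D)) : ℕ)) := by
            intro i j hij
            have := g'.strictMono hij
            rwa [Fin.lt_def] at this
          intro i j hij
          have h5 := strictMono_growth hs i 0 i (by simp)
          have h6 := hgrow i 0
          have h7 := strictMono_growth hs j 0 j (by simp)
          have h8 := hgrow j 0
          have h9 := hs hij
          rw [ha0] at h6 h8
          simp only [zero_add] at h6 h8
          have h10 : ((g' i : Fin (n + a D)) : ℕ) < g' j := h9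
          have h11 : ((g' 0 : Fin (n + a D)) : ℕ) + i ≤ g' i := h5
          have h12 : ((g' 0 : Fin (n + a D)) : ℕ) + j ≤ g' j := h7
          show ((g' i : Fin (n + a D)) : ℕ) - a i + a i < (g' j : ℕ) - a j + a j
          omega⟩
      left_inv := by
        intro g
        apply Subtype.ext
        funext i
        apply Fin.ext
        show ((g.1 i : ℕ) + a i) - a i = g.1 i
        omega
      right_inv := by
        intro g'
        have hs : StrictMono (fun i => ((g' i : Fin (n + a D)) : ℕ)) := by
          intro i j hij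
          have := g'.strictMono hij
          rwa [Fin.lt_def] at this
        ext i
        have h5 := strictMono_growth hs i 0 i (by simp)
        have h6 := hgrow i 0
        rw [ha0] at h6
        simp only [zero_add] at h6
        have h8 : ((g' 0 : Fin (n + a D)) : ℕ) + i ≤ g' i := h5
        show ((g' i : Fin (n + a D)) : ℕ) - a i + a i = g' i
        omega }
  rw [Nat.card_congr e, Nat.card_congr Set.powersetCard.ofFinEmbEquiv, Set.powersetCard.card]
  simp

theorem sort_iff {D n : ℕ} (σ : Equiv.Perm (Fin (D + 1))) (a : ℕ → ℕ)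
    (ha : ∀ i : Fin D, (σ i.castSucc < σ i.succ → a (i + 1) = a i + 1) ∧
      (¬ σ i.castSucc < σ i.succ → a (i + 1) = a i)) (f : Fin (D + 1) → Fin n) :
    Tuple.sort f = σ ↔ StrictMono (fun i : Fin (D + 1) => ((f (σ i) : Fin n) : ℕ) + a i) := by
  rw [eq_comm, Tuple.eq_sort_iff]
  constructor
  · rintro ⟨h1, h2⟩
    rw [Fin.strictMono_iff_lt_succ]
    intro i
    have h3 : ((f (σ i.castSucc) : Fin n) : ℕ) ≤ f (σ i.succ) := h1 (Fin.castSucc_lt_succ).le
    have h4 := ha i
    show ((f (σ i.castSucc) : Fin n) : ℕ) + a i < f (σ i.succ) + a (i + 1)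
    by_cases h5 : σ i.castSucc < σ i.succ
    · rw [h4.1 h5]
      omega
    · have h6 : f (σ i.castSucc) ≠ f (σ i.succ) := fun h => h5 (h2 _ _ (Fin.castSucc_lt_succ) h)
      have h7 : ((f (σ i.castSucc) : Fin n) : ℕ) ≠ f (σ i.succ) := fun h => h6 (Fin.ext h)
      rw [h4.2 h5]
      omega
  · intro h
    have hstep : ∀ i : Fin D, ((f (σ i.castSucc) : Fin n) : ℕ) < f (σ i.succ) ∨
        (((f (σ i.castSucc) : Fin n) : ℕ) = f (σ i.succ) ∧ σ i.castSucc < σ i.succ) := by
      intro i
      have h3 : ((f (σ i.castSucc) : Fin n) : ℕ) + a i < f (σ i.succ) + a (i + 1) :=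
        h (Fin.castSucc_lt_succ)
      have h4 := ha i
      by_cases h5 : σ i.castSucc < σ i.succ
      · rw [h4.1 h5] at h3
        have : ((f (σ i.castSucc) : Fin n) : ℕ) ≤ f (σ i.succ) := by omega
        rcases this.lt_or_eq with h6 | h6
        · left; exact h6
        · right; exact ⟨h6, h5⟩
      · rw [h4.2 h5] at h3
        left
        omega
    have hmono : Monotone (f ∘ σ) := by
      rw [Fin.monotone_iff_le_succ]
      intro i
      rw [Fin.le_def]
      show ((f (σ i.castSucc) : Fin n) : ℕ) ≤ f (σ i.succ)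
      rcases hstep i with h6 | h6
      · exact h6.le
      · exact h6.1.le
    refine ⟨hmono, ?_⟩
    have key : ∀ (k : ℕ) (i j : Fin (D + 1)), (j : ℕ) = i + k + 1 → f (σ i) = f (σ j) →
        σ i < σ j := by
      intro k
      induction k with
      | zero =>
        intro i j hij hf
        have hi : (i : ℕ) < D := by have := j.isLt; omega
        have e1 : i = (⟨i, hi⟩ : Fin D).castSucc := Fin.ext rfl
        have e2 : j = (⟨i, hi⟩ : Fin D).succ := Fin.ext (by simp; omega)
        rw [e1, e2] at hf ⊢
        rcases hstep ⟨i, hi⟩ with h6 | h6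
        · rw [hf] at h6
          exact absurd h6 (lt_irrefl _)
        · exact h6.2
      | succ k ih =>
        intro i j hij hf
        have hj := j.isLt
        have hi : (i : ℕ) + k + 1 < D := by omega
        set m : Fin (D + 1) := (⟨i + k + 1, hi⟩ : Fin D).castSucc with hm
        have e2 : j = (⟨i + k + 1, hi⟩ : Fin D).succ := Fin.ext (by simp; omega)
        have him : i ≤ m := by
          rw [Fin.le_def, hm]
          simp
          omega
        have hmj : m ≤ j := by
          rw [e2, hm]
          exact (Fin.castSucc_lt_succ).le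
        have l1 : f (σ i) ≤ f (σ m) := hmono him
        have l2 : f (σ m) ≤ f (σ j) := hmono hmj
        have f1 : f (σ i) = f (σ m) := le_antisymm l1 (by rw [hf]; exact l2)
        have f2 : f (σ m) = f (σ j) := by rw [← f1, hf]
        have l3 : σ i < σ m := ih i m (by simp [hm]) f1
        have l4 : σ m < σ j := by
          rw [e2] at f2 ⊢
          rw [hm] at f2 ⊢
          rcases hstep ⟨i + k + 1, hi⟩ with h6 | h6
          · rw [f2] at h6
            exact absurd h6 (lt_irrefl _)
          · exact h6.2
        exact l3.trans l4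
    intro i j hij hf
    exact key (j - i - 1) i j (by rw [Fin.lt_def] at hij; omega) hf

theorem hser_sort (d : ℕ) (σ : Equiv.Perm (Fin d)) :
    ∃ k ≤ d, hser d (fun n => Nat.card {f : Fin d → Fin n // Tuple.sort f = σ}) = X ^ k := by
  classical
  rcases d with _ | D
  · refine ⟨0, le_rfl, ?_⟩
    have h1 : ∀ n, Nat.card {f : Fin 0 → Fin n // Tuple.sort f = σ} = 1 := by
      intro n
      rw [Nat.card_eq_one_iff_unique]
      refine ⟨⟨fun a b => Subtype.ext (Subsingleton.elim _ _)⟩, ⟨⟨fun i => i.elim0, ?_⟩⟩⟩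
      exact Subsingleton.elim _ _
    simp_rw [h1]
    have h2 := mk_add_choose_mul_one_sub_pow_eq_one (S := ℤ) 0
    simp only [zero_add, Nat.choose_zero_right] at h2
    unfold hser
    rw [pow_zero]
    exact h2
  · set asc : ℕ → Prop := fun k => ∃ h : k < D,
      σ (⟨k, h⟩ : Fin D).castSucc < σ (⟨k, h⟩ : Fin D).succ with hasc
    set a : ℕ → ℕ := Nat.count asc with hadef
    have ha0 : a 0 = 0 := Nat.count_zero _
    have hstep : ∀ k, a (k + 1) = a k ∨ a (k + 1) = a k + 1 := by
      intro k
      rw [hadef, Nat.count_succ]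
      split_ifs
      · right; rfl
      · left; rfl
    have haD : a D ≤ D := Nat.count_le _
    refine ⟨D + 1 - a D, by omega, ?_⟩
    have hcard : ∀ n, Nat.card {f : Fin (D + 1) → Fin n // Tuple.sort f = σ} =
        (n + a D).choose (D + 1) := by
      intro n
      rw [← card_chain D a ha0 hstep n]
      apply Nat.card_congr
      refine Equiv.subtypeEquiv (Equiv.arrowCongr σ.symm (Equiv.refl _)) ?_
      intro f
      rw [sort_iff σ a _ f]
      · rfl
      · intro i
        constructor
        · intro h
          rw [hadef, Nat.count_succ, if_pos]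
          exact ⟨i.isLt, h⟩
        · intro h
          rw [hadef, Nat.count_succ, if_neg]
          · rfl
          · rintro ⟨h1, h2⟩
            exact h h2
    simp_rw [hcard]
    exact hser_choose D (a D) haD

theorem good_sort (d : ℕ) (σ : Equiv.Perm (Fin d)) :
    Good d (fun n => Nat.card {f : Fin d → Fin n // Tuple.sort f = σ}) := by
  obtain ⟨k, hk, h⟩ := hser_sort d σ
  exact Good.of_eq_X_pow hk h

theorem card_fiber {α β : Type*} [Finite α] [Fintype β] (P : α → Prop) (φ : α → β) :
    Nat.card {a // P a} = ∑ b, Nat.card {a // P a ∧ φ a = b} := by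
  have h1 : ∀ b, Nat.card {a // P a ∧ φ a = b} =
      Nat.card {x : {a // P a} // φ x.1 = b} := by
    intro b
    exact Nat.card_congr (Equiv.subtypeSubtypeEquivSubtypeInter P (fun a => φ a = b)).symm
  simp_rw [h1]
  rw [← Nat.card_sigma, Nat.card_congr (Equiv.sigmaFiberEquiv (fun x : {a // P a} => φ x.1))]

theorem Good.of_fibers {d : ℕ} {β : Type*} [Fintype β] {W : ℕ → Type*} [∀ n, Finite (W n)]
    (P : ∀ n, W n → Prop) (φ : ∀ n, W n → β)
    (h : ∀ b, Good d (fun n => Nat.card {f : W n // P n f ∧ φ n f = b})) :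
    Good d (fun n => Nat.card {f : W n // P n f}) := by
  have h1 : (fun n => Nat.card {f : W n // P n f}) =
      (fun n => ∑ b, Nat.card {f : W n // P n f ∧ φ n f = b}) := by
    funext n
    exact card_fiber (P n) (φ n)
  rw [h1]
  exact Good.sum (fun b _ => h b)

theorem Good.of_empty {d : ℕ} {W : ℕ → Type*} (P : ∀ n, W n → Prop) (h : ∀ n f, ¬ P n f) :
    Good d (fun n => Nat.card {f : W n // P n f}) := by
  have h1 : (fun n => Nat.card {f : W n // P n f}) = fun _ => 0 := by
    funext n
    have : IsEmpty {f : W n // P n f} := ⟨fun f => h n f.1 f.2⟩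
    exact Nat.card_of_isEmpty
  rw [h1]
  exact Good.zero d

theorem sort_pos {d n1 n : ℕ} {σ : Equiv.Perm (Fin d)} {g1 : Fin d → Fin n1}
    (h1 : Tuple.sort g1 = σ) {g : Fin d → Fin n} (h : Tuple.sort g = σ) {i j : Fin d}
    (hij : j < i) (hlt : g1 i < g1 j) : g i < g j := by
  rw [eq_comm, Tuple.eq_sort_iff] at h1 h
  have hpos : σ.symm i < σ.symm j := by
    by_contra hcon
    push Not at hcon
    have := h1.1 hcon
    simp only [Function.comp_apply, Equiv.apply_symm_apply] at this
    exact absurd hlt (not_lt.mpr this)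
  have h2 := h.1 hpos.le
  simp only [Function.comp_apply, Equiv.apply_symm_apply] at h2
  rcases h2.lt_or_eq with h3 | h3
  · exact h3
  · have h4 := h.2 _ _ hpos (by simpa using h3)
    simp only [Equiv.apply_symm_apply] at h4
    exact absurd h4 (not_lt.mpr hij.le)

theorem good_col {V : Type*} [Fintype V] (E : V → V → Prop) :
    Good (Fintype.card V)
      (fun n => Nat.card {f : V → Fin n // ∀ x y, E x y → f x ≠ f y}) := by
  classical
  apply Good.of_fibers (W := fun n => V → Fin n) (fun n f => ∀ x y, E x y → f x ≠ f y)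
    (β := Finset (V × V))
    (fun n f => Finset.univ.filter (fun p => E p.1 p.2 ∧ f p.1 < f p.2))
  intro ω
  by_cases hex : ∃ n, ∃ f0 : V → Fin n, (∀ x y, E x y → f0 x ≠ f0 y) ∧
      Finset.univ.filter (fun p : V × V => E p.1 p.2 ∧ f0 p.1 < f0 p.2) = ω
  swap
  · push Not at hex
    apply Good.of_empty (W := fun n => V → Fin n)
    rintro n f ⟨h1, h2⟩
    exact hex n f h1 h2
  obtain ⟨n0, f0, hf0, hω0⟩ := hex
  set e0 := Fintype.equivFin V with he0
  set τ := Tuple.sort (fun i => OrderDual.toDual (f0 (e0.symm i))) with hτ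
  set e : V ≃ Fin (Fintype.card V) := e0.trans τ.symm with hedef
  have he : ∀ x y, f0 x < f0 y → e y < e x := by
    intro x y hxy
    by_contra hcon
    push Not at hcon
    have hm := Tuple.monotone_sort (fun i => OrderDual.toDual (f0 (e0.symm i)))
    have h1 := hm hcon
    simp only [Function.comp_apply, ← hτ, hedef, Equiv.trans_apply, Equiv.apply_symm_apply,
      Equiv.symm_apply_apply, OrderDual.toDual_le_toDual] at h1
    exact absurd hxy (not_lt.mpr h1)
  apply Good.of_fibers (W := fun n => V → Fin n) _ (β := Equiv.Perm (Fin (Fintype.card V)))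
    (fun n f => Tuple.sort (f ∘ e.symm))
  intro σ
  by_cases hex2 : ∃ n, ∃ f1 : V → Fin n, ((∀ x y, E x y → f1 x ≠ f1 y) ∧
      Finset.univ.filter (fun p : V × V => E p.1 p.2 ∧ f1 p.1 < f1 p.2) = ω) ∧
      Tuple.sort (f1 ∘ e.symm) = σ
  swap
  · push Not at hex2
    apply Good.of_empty (W := fun n => V → Fin n)
    rintro n f ⟨⟨h1, h2⟩, h3⟩
    exact hex2 n f ⟨h1, h2⟩ h3
  obtain ⟨n1, f1, ⟨hf1, hω1⟩, hσ1⟩ := hex2
  have hmem0 : ∀ x y, E x y → ((x, y) ∈ ω ↔ f0 x < f0 y) := by
    intro x y hxy
    rw [← hω0, Finset.mem_filter]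
    simp [hxy]
  have hmem1 : ∀ x y, E x y → ((x, y) ∈ ω ↔ f1 x < f1 y) := by
    intro x y hxy
    rw [← hω1, Finset.mem_filter]
    simp [hxy]
  have hcongr : (fun n => Nat.card {f : V → Fin n // ((∀ x y, E x y → f x ≠ f y) ∧
      Finset.univ.filter (fun p : V × V => E p.1 p.2 ∧ f p.1 < f p.2) = ω) ∧
      Tuple.sort (f ∘ e.symm) = σ}) =
      fun n => Nat.card {f : Fin (Fintype.card V) → Fin n // Tuple.sort f = σ} := by
    funext n
    apply Nat.card_congr
    refine Equiv.subtypeEquiv (Equiv.arrowCongr e (Equiv.refl _)) ?_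
    intro f
    have hfe : (Equiv.arrowCongr e (Equiv.refl (Fin n))) f = f ∘ e.symm := rfl
    rw [hfe]
    constructor
    · exact fun h => h.2
    · intro hs
      refine ⟨?_, hs⟩
      have key : ∀ x y, E x y → (f1 x < f1 y → f x < f y) ∧ (f1 y < f1 x → f y < f x) := by
        intro x y hxy
        constructor
        · intro hlt
          have h0 : f0 x < f0 y := (hmem0 x y hxy).1 ((hmem1 x y hxy).2 hlt)
          have h1 := he _ _ h0
          have := sort_pos hσ1 hs h1 (by simpa using hlt)
          simpa using this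
        · intro hlt
          have h0 : ¬ f0 x < f0 y := by
            intro h
            have := (hmem1 x y hxy).1 ((hmem0 x y hxy).2 h)
            exact absurd this (not_lt.mpr hlt.le)
          have h0' : f0 y < f0 x := lt_of_le_of_ne (not_lt.mp h0) (hf0 x y hxy).symm
          have h1 := he _ _ h0'
          have := sort_pos hσ1 hs h1 (by simpa using hlt)
          simpa using this
      constructor
      · intro x y hxy
        rcases lt_or_gt_of_ne (hf1 x y hxy) with h | h
        · exact ((key x y hxy).1 h).ne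
        · exact ((key x y hxy).2 h).ne'
      · rw [← hω1]
        apply Finset.filter_congr
        rintro ⟨x, y⟩ -
        simp only
        constructor
        · rintro ⟨hxy, hlt⟩
          refine ⟨hxy, ?_⟩
          rcases lt_or_gt_of_ne (hf1 x y hxy) with h | h
          · exact h
          · exact absurd ((key x y hxy).2 h) (not_lt.mpr hlt.le)
        · rintro ⟨hxy, hlt⟩
          exact ⟨hxy, (key x y hxy).1 hlt⟩
  rw [hcongr]
  exact good_sort _ σ

/-- coefficients of the Eulerian-type series -/
noncomputable def pc (d j : ℕ) : ℤ := coeff j (hser d (fun n => n ^ d))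

theorem hser_pow_succ (d : ℕ) :
    hser (d + 1) (fun n => n ^ (d + 1)) =
      X * ((1 - X) * derivative ℤ (hser d (fun n => n ^ d))) +
        X * ((d + 1 : ℤ) • hser d (fun n => n ^ d)) := by
  have h1 : (PowerSeries.mk (fun n => ((n ^ (d + 1) : ℕ) : ℤ))) =
      X * derivative ℤ (PowerSeries.mk (fun n => ((n ^ d : ℕ) : ℤ))) := by
    ext n
    rcases n with _ | n
    · simp
    · rw [coeff_succ_X_mul, coeff_derivative, coeff_mk, coeff_mk]
      push_cast
      ring
  have h2 : derivative ℤ ((1 - X : PowerSeries ℤ) ^ (d + 1)) =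
      - ((d + 1 : ℤ) • (1 - X) ^ d) := by
    rw [Derivation.leibniz_pow]
    simp
  unfold hser
  rw [h1, Derivation.leibniz, h2]
  simp only [smul_eq_mul, zsmul_eq_mul]
  push_cast
  ring

theorem pc_succ_zero (d : ℕ) : pc (d + 1) 0 = 0 := by
  unfold pc
  rw [hser_pow_succ]
  simp

theorem pc_succ_succ (d j : ℕ) :
    pc (d + 1) (j + 1) = (j + 1) * pc d (j + 1) + (d + 1 - j) * pc d j := by
  unfold pc
  rw [hser_pow_succ, map_add, coeff_succ_X_mul, coeff_succ_X_mul, sub_mul, one_mul, map_sub,
    coeff_derivative, map_zsmul, smul_eq_mul]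
  rcases j with _ | j
  · simp
  · rw [coeff_succ_X_mul, coeff_derivative]
    push_cast
    ring

theorem pc_zero_left (j : ℕ) : pc 0 j = if j = 0 then 1 else 0 := by
  unfold pc hser
  have h2 := mk_add_choose_mul_one_sub_pow_eq_one (S := ℤ) 0
  simp only [zero_add, Nat.choose_zero_right] at h2
  simp only [pow_zero, zero_add]
  rw [h2, coeff_one]

theorem pc_vanish : ∀ d j, d < j → pc d j = 0 := by
  intro d
  induction d with
  | zero =>
    intro j hj
    rw [pc_zero_left, if_neg (by omega)]
  | succ d ih =>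
    intro j hj
    obtain ⟨j, rfl⟩ : ∃ k, j = k + 1 := ⟨j - 1, by omega⟩
    rw [pc_succ_succ, ih _ (by omega), ih _ (by omega)]
    simp

theorem pc_symm : ∀ d j k, j + k = d + 2 → pc (d + 1) j = pc (d + 1) k := by
  intro d
  induction d with
  | zero =>
    intro j k hjk
    have h0 : pc 1 0 = 0 := pc_succ_zero 0
    have h2 : pc 1 2 = 0 := pc_vanish 1 2 (by norm_num)
    have : (j = 0 ∧ k = 2) ∨ (j = 1 ∧ k = 1) ∨ (j = 2 ∧ k = 0) := by omega
    rcases this with ⟨rfl, rfl⟩ | ⟨rfl, rfl⟩ | ⟨rfl, rfl⟩
    · rw [zero_add, h0, h2]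
    · rfl
    · rw [zero_add, h0, h2]
  | succ d ih =>
    intro j k hjk
    rcases Nat.eq_zero_or_pos j with rfl | hj
    · rw [pc_succ_zero, pc_vanish _ _ (by omega)]
    rcases Nat.eq_zero_or_pos k with rfl | hk
    · rw [pc_succ_zero, pc_vanish _ _ (by omega)]
    obtain ⟨j, rfl⟩ : ∃ l, j = l + 1 := ⟨j - 1, by omega⟩
    obtain ⟨k, rfl⟩ : ∃ l, k = l + 1 := ⟨k - 1, by omega⟩
    have hd : (d : ℤ) = (j : ℤ) + k - 1 := by
      have : j + k = d + 1 := by omega
      have h : ((j + k : ℕ) : ℤ) = ((d + 1 : ℕ) : ℤ) := by exact_mod_cast this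
      push_cast at h
      linarith
    rw [pc_succ_succ (d + 1) j, pc_succ_succ (d + 1) k, ih (k + 1) j (by omega),
      ih k (j + 1) (by omega)]
    push_cast
    rw [hd]
    ring

/-- partial sum of `(1 - X) g` -/
theorem sum_range_one_sub_mul (g : PowerSeries ℤ) (i : ℕ) :
    ∑ j ∈ Finset.range (i + 1), coeff j ((1 - X) * g) = coeff i g := by
  induction i with
  | zero => simp [sub_mul]
  | succ i ih =>
    rw [Finset.sum_range_succ, ih, sub_mul, one_mul, map_sub, coeff_succ_X_mul]
    ring

/-- The functional `S_i`. -/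
noncomputable def S (d i : ℕ) (h : PowerSeries ℤ) : ℤ :=
  ∑ j ∈ Finset.Icc (d - i + 1) d, coeff j h - ∑ j ∈ Finset.range (i + 1), coeff j h

theorem S_eq (d i : ℕ) (hi : i ≤ d) (h : PowerSeries ℤ) :
    S d i h = ∑ j ∈ Finset.range (d + 1), coeff j h - ∑ j ∈ Finset.range (d - i + 1), coeff j h
      - ∑ j ∈ Finset.range (i + 1), coeff j h := by
  unfold S
  congr 1
  have h1 : Finset.range (d + 1) = Finset.range (d - i + 1) ∪ Finset.Icc (d - i + 1) d := by
    ext j
    simp only [Finset.mem_range, Finset.mem_union, Finset.mem_Icc]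
    omega
  have h2 : Disjoint (Finset.range (d - i + 1)) (Finset.Icc (d - i + 1) d) := by
    rw [Finset.disjoint_left]
    intro j hj hj'
    simp only [Finset.mem_range, Finset.mem_Icc] at hj hj'
    omega
  rw [h1, Finset.sum_union h2]
  ring

theorem S_add (d i : ℕ) (h h' : PowerSeries ℤ) : S d i (h + h') = S d i h + S d i h' := by
  unfold S
  simp only [map_add, Finset.sum_add_distrib]
  ring

theorem S_one_sub_mul (d i : ℕ) (hi : i ≤ d) (g : PowerSeries ℤ) :
    S d i ((1 - X) * g) = coeff d g - coeff (d - i) g - coeff i g := by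
  rw [S_eq d i hi, sum_range_one_sub_mul, sum_range_one_sub_mul, sum_range_one_sub_mul]

theorem S_pow (d i : ℕ) (hi : i ≤ d + 1) : S (d + 1) i (hser (d + 1) (fun n => n ^ (d + 1))) = 0 := by
  have h1 : ∑ j ∈ Finset.Icc (d + 1 - i + 1) (d + 1), pc (d + 1) j =
      ∑ j ∈ Finset.Icc 1 i, pc (d + 1) j := by
    apply Finset.sum_bij' (fun j _ => d + 2 - j) (fun j _ => d + 2 - j)
    · intro j hj
      simp only [Finset.mem_Icc] at hj ⊢
      omega
    · intro j hj
      simp only [Finset.mem_Icc] at hj ⊢
      omega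
    · intro j hj
      simp only [Finset.mem_Icc] at hj
      omega
    · intro j hj
      simp only [Finset.mem_Icc] at hj
      omega
    · intro j hj
      simp only [Finset.mem_Icc] at hj
      apply pc_symm
      omega
  have h2 : ∑ j ∈ Finset.range (i + 1), pc (d + 1) j = ∑ j ∈ Finset.Icc 1 i, pc (d + 1) j := by
    rw [Finset.sum_range_succ', pc_succ_zero, add_zero, Finset.range_eq_Ico,
      Finset.sum_Ico_add' (fun j => pc (d + 1) j) 0 i 1]
    rfl
  have h3 : S (d + 1) i (hser (d + 1) (fun n => n ^ (d + 1))) =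
      ∑ j ∈ Finset.Icc (d + 1 - i + 1) (d + 1), pc (d + 1) j -
        ∑ j ∈ Finset.range (i + 1), pc (d + 1) j := rfl
  rw [h3, h1, h2, sub_self]

/-- number of maps `V → Fin n` separating every pair in `E`. -/
noncomputable def cnt {V : Type*} (E : Finset (V × V)) (n : ℕ) : ℕ :=
  Nat.card {f : V → Fin n // ∀ p ∈ E, f p.1 ≠ f p.2}

theorem good_cnt {V : Type*} [Fintype V] (E : Finset (V × V)) :
    Good (Fintype.card V) (cnt E) := by
  have h := good_col (V := V) (fun x y => (x, y) ∈ E)
  have h1 : (fun n => Nat.card {f : V → Fin n // ∀ x y, (x, y) ∈ E → f x ≠ f y}) = cnt E := by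
    funext n
    unfold cnt
    congr 1
    simp only [Prod.forall]
  rwa [h1] at h

theorem cnt_del_contr {V : Type*} [Fintype V] [DecidableEq V] (E : Finset (V × V)) {u v : V}
    (huv : u ≠ v) :
    ∃ E' : Finset ({x : V // x ≠ v} × {x : V // x ≠ v}),
      ∀ n, cnt E n = cnt (insert (u, v) E) n + cnt E' n := by
  set π : V → {x : V // x ≠ v} := fun x => if h : x = v then ⟨u, huv⟩ else ⟨x, h⟩ with hπ
  refine ⟨E.image (Prod.map π π), ?_⟩
  intro n
  have hπv : π v = ⟨u, huv⟩ := by simp [hπ]
  have hπne : ∀ x (h : x ≠ v), π x = ⟨x, h⟩ := by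
    intro x h
    simp [hπ, h]
  have h1 : cnt E n = Nat.card {f : V → Fin n // (∀ p ∈ E, f p.1 ≠ f p.2) ∧ decide (f u = f v) = true} +
      Nat.card {f : V → Fin n // (∀ p ∈ E, f p.1 ≠ f p.2) ∧ decide (f u = f v) = false} := by
    unfold cnt
    rw [card_fiber (fun f : V → Fin n => ∀ p ∈ E, f p.1 ≠ f p.2) (fun f => decide (f u = f v)),
      Fintype.sum_bool]
  have h2 : Nat.card {f : V → Fin n // (∀ p ∈ E, f p.1 ≠ f p.2) ∧ decide (f u = f v) = false} =
      cnt (insert (u, v) E) n := by
    unfold cnt
    apply Nat.card_congr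
    apply Equiv.subtypeEquivRight
    intro f
    rw [Finset.forall_mem_insert, and_comm]
    simp
  have h3 : Nat.card {f : V → Fin n // (∀ p ∈ E, f p.1 ≠ f p.2) ∧ decide (f u = f v) = true} =
      cnt (E.image (Prod.map π π)) n := by
    unfold cnt
    apply Nat.card_congr
    refine
      { toFun := fun f => ⟨fun x => f.1 x.1, ?_⟩
        invFun := fun f => ⟨fun x => f.1 (π x), ?_⟩
        left_inv := ?_
        right_inv := ?_ }
    · intro p hp
      rw [Finset.mem_image] at hp
      obtain ⟨q, hq, rfl⟩ := hp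
      have hfuv : f.1 u = f.1 v := by simpa using f.2.2
      have hval : ∀ x, f.1 (π x).1 = f.1 x := by
        intro x
        by_cases hx : x = v
        · rw [hx, hπv]
          exact hfuv
        · rw [hπne x hx]
      simp only [Prod.map_fst, Prod.map_snd]
      rw [hval, hval]
      exact f.2.1 q hq
    · refine ⟨?_, ?_⟩
      · intro p hp
        exact f.2 (Prod.map π π p) (Finset.mem_image_of_mem _ hp)
      · show decide (f.1 (π u) = f.1 (π v)) = true
        rw [hπv, hπne u huv]
        simp
    · intro f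
      apply Subtype.ext
      funext x
      have hfuv : f.1 u = f.1 v := by simpa using f.2.2
      by_cases hx : x = v
      · show f.1 (π x).1 = f.1 x
        rw [hx, hπv]
        exact hfuv
      · show f.1 (π x).1 = f.1 x
        rw [hπne x hx]
    · intro f
      apply Subtype.ext
      funext x
      show f.1 (π x.1) = f.1 x
      rw [hπne x.1 x.2]
  rw [h1, h2, h3, add_comm]

theorem S_cnt_nonneg {V : Type*} [Fintype V] [Nonempty V] (i : ℕ) (hi : i ≤ Fintype.card V)
    (E : Finset (V × V)) : 0 ≤ S (Fintype.card V) i (hser (Fintype.card V) (cnt E)) := by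
  classical
  obtain ⟨d, hd⟩ : ∃ d, Fintype.card V = d + 1 := ⟨Fintype.card V - 1, by
    have := Fintype.card_pos (α := V)
    omega⟩
  induction E using Finset.induction_on with
  | empty =>
    have h1 : (cnt (∅ : Finset (V × V))) = fun n => n ^ (d + 1) := by
      funext n
      unfold cnt
      simp only [Finset.notMem_empty, false_imp_iff, implies_true]
      rw [Nat.card_congr (Equiv.subtypeUnivEquiv (fun _ => trivial))]
      rw [Nat.card_eq_fintype_card, Fintype.card_fun, Fintype.card_fin, hd]
    rw [h1, hd, S_pow d i (by omega)]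
  | insert p E hp ih =>
    obtain ⟨u, v⟩ := p
    by_cases huv : u = v
    · subst huv
      have h1 : (cnt (insert (u, u) E)) = fun _ => 0 := by
        funext n
        unfold cnt
        have : IsEmpty {f : V → Fin n // ∀ p ∈ insert (u, u) E, f p.1 ≠ f p.2} :=
          ⟨fun f => f.2 (u, u) (Finset.mem_insert_self _ _) rfl⟩
        exact Nat.card_of_isEmpty
      have h2 : hser (Fintype.card V) (fun _ => 0) = 0 := by
        unfold hser
        have : (PowerSeries.mk fun _ => ((0 : ℕ) : ℤ)) = 0 := by
          ext n; simp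
        rw [this, zero_mul]
      rw [h1, h2]
      unfold S
      simp
    · obtain ⟨E', hE'⟩ := cnt_del_contr E huv
      have hcard : Fintype.card {x : V // x ≠ v} = d := by
        have := Fintype.card_subtype_compl (fun x : V => x = v)
        simp only [Fintype.card_subtype_eq] at this
        have h2 : Fintype.card {x : V // x ≠ v} = Fintype.card {x : V // ¬ x = v} := rfl
        rw [h2, this, hd]
        rfl
      have hgood := good_cnt E'
      rw [hcard] at hgood
      have hrec : hser (d + 1) (cnt E) =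
          hser (d + 1) (cnt (insert (u, v) E)) + (1 - X) * hser d (cnt E') := by
        have h1 : (PowerSeries.mk (fun n => (cnt E n : ℤ))) =
            PowerSeries.mk (fun n => (cnt (insert (u, v) E) n : ℤ)) +
              PowerSeries.mk (fun n => (cnt E' n : ℤ)) := by
          ext n
          rw [map_add, coeff_mk, coeff_mk, coeff_mk, hE']
          push_cast
          ring
        unfold hser
        rw [h1, pow_succ]
        ring
      rw [hd] at ih hi ⊢
      rw [hrec, S_add, S_one_sub_mul _ _ hi, hgood.2 (d + 1) (by omega)] at ih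
      have h1 := hgood.1 (d + 1 - i)
      have h2 := hgood.1 i
      linarith

/-- **Theorem.** For every graph `G` on `d ≥ 1` vertices, the polynomial `h_G` defined by
`∑ χ_G(n) z^n = h_G(z) / (1 - z)^(d+1)` satisfies
`h_d + ... + h_{d-i+1} - (h_0 + ... + h_i) ≥ 0` for all `1 ≤ i ≤ ⌊d/2⌋`.
Here `χ_G(n) = Nat.card (G.Coloring (Fin n))` is the number of proper `n`-colourings. -/
theorem result {V : Type*} [Fintype V] [Nonempty V] (G : SimpleGraph V) :
    ∃ h : Polynomial ℤ,
      (h : PowerSeries ℤ) =
        PowerSeries.mk (fun n => (Nat.card (G.Coloring (Fin n)) : ℤ)) *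
          (1 - PowerSeries.X) ^ (Fintype.card V + 1) ∧
      ∀ i : ℕ, 1 ≤ i → i ≤ Fintype.card V / 2 →
        0 ≤ ∑ j ∈ Finset.Icc (Fintype.card V - i + 1) (Fintype.card V), h.coeff j -
          ∑ j ∈ Finset.range (i + 1), h.coeff j := by
  classical
  set E : Finset (V × V) := Finset.univ.filter (fun p => G.Adj p.1 p.2) with hE
  have hcnt : ∀ n, Nat.card (G.Coloring (Fin n)) = cnt E n := by
    intro n
    unfold cnt
    apply Nat.card_congr
    exact
      { toFun := fun C => ⟨fun x => C x, fun p hp => C.valid (by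
          rw [hE, Finset.mem_filter] at hp
          exact hp.2)⟩
        invFun := fun f => SimpleGraph.Coloring.mk f.1 (fun {x y} h => f.2 (x, y) (by
          rw [hE, Finset.mem_filter]
          exact ⟨Finset.mem_univ _, h⟩))
        left_inv := fun C => by
          ext x
          rfl
        right_inv := fun f => rfl }
  have hser_eq : PowerSeries.mk (fun n => (Nat.card (G.Coloring (Fin n)) : ℤ)) *
      (1 - PowerSeries.X) ^ (Fintype.card V + 1) = hser (Fintype.card V) (cnt E) := by
    unfold hser
    simp_rw [hcnt]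
  have hgood := good_cnt E
  have hcoe : ((trunc (Fintype.card V + 1) (hser (Fintype.card V) (cnt E)) : Polynomial ℤ) :
      PowerSeries ℤ) = hser (Fintype.card V) (cnt E) := by
    ext j
    rw [Polynomial.coeff_coe, coeff_trunc]
    split_ifs with hj
    · rfl
    · rw [hgood.2 j (by omega)]
  refine ⟨trunc (Fintype.card V + 1) (hser (Fintype.card V) (cnt E)), ?_, ?_⟩
  · rw [hcoe, hser_eq]
  · intro i hi1 hi2
    have h1 := S_cnt_nonneg i (by omega) E
    have h2 : ∀ j, (trunc (Fintype.card V + 1) (hser (Fintype.card V) (cnt E))).coeff j =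
        coeff j (hser (Fintype.card V) (cnt E)) := by
      intro j
      rw [← Polynomial.coeff_coe, hcoe]
    simp_rw [h2]
    exact h1

end Pool.H12.MV.PartialSums
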